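import Mathlib

set_option autoImplicit false

namespace Pool.Agent.Results.MP_c0d803_al.Nested

/-- One derivation step of an indexed grammar (Aho 1968): nonterminals carry a stack of indices.
`R₁`: rules `A → α` (the stack is copied to every nonterminal of `α`);
`R₂`: rules `A → B f` (push the index `f`); `R₃`: rules `A f → α` (pop the index `f`). -/
def Step {T N I : Type} (R₁ : Set (N × List (T ⊕ N))) (R₂ : Set (N × N × I))
    (R₃ : Set (N × I × List (T ⊕ N))) (u v : List (T ⊕ (N × List I))) : Prop :=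
  ∃ (p q : List (T ⊕ (N × List I))) (A : N) (l : List I),
    (∃ α : List (T ⊕ N), (A, α) ∈ R₁ ∧ u = p ++ Sum.inr (A, l) :: q ∧
      v = p ++ α.map (Sum.map id (fun B => (B, l))) ++ q) ∨
    (∃ (B : N) (f : I), (A, B, f) ∈ R₂ ∧ u = p ++ Sum.inr (A, l) :: q ∧
      v = p ++ Sum.inr (B, f :: l) :: q) ∨
    (∃ (f : I) (α : List (T ⊕ N)), (A, f, α) ∈ R₃ ∧ u = p ++ Sum.inr (A, f :: l) :: q ∧
      v = p ++ α.map (Sum.map id (fun B => (B, l))) ++ q)

/-- Indexed languages: generated by an indexed grammar with finitely many nonterminals, indices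
and rules. -/
def IsIndexed {T : Type} (L : Language T) : Prop :=
  ∃ (N I : Type) (_ : Finite N) (_ : Finite I) (S : N) (R₁ : Set (N × List (T ⊕ N)))
    (R₂ : Set (N × N × I)) (R₃ : Set (N × I × List (T ⊕ N))),
    R₁.Finite ∧ R₂.Finite ∧ R₃.Finite ∧
    ∀ w : List T, w ∈ L ↔
      Relation.ReflTransGen (Step R₁ R₂ R₃) [Sum.inr (S, [])] (w.map Sum.inl)

/-- The words of `L`, read in the group `Γ` by sending each letter `x` to `e x`. -/
def rels {A Γ : Type} [Group Γ] (e : A → Γ) (L : Language A) : Set Γ :=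
  {x | ∃ w ∈ L, x = (w.map e).prod}

section CF

variable {A : Type} (g : ContextFreeGrammar A)

def Pr (B : g.NT) : Prop := ∃ w : List A, g.Derives [Symbol.nonterminal B] (w.map Symbol.terminal)

open Classical in
noncomputable def symW : Symbol A g.NT → List A
  | Symbol.terminal a => [a]
  | Symbol.nonterminal B => if h : Pr g B then h.choose else []

def AllPr (β : List (Symbol A g.NT)) : Prop := ∀ B, Symbol.nonterminal B ∈ β → Pr g B

lemma der_flat (β : List (Symbol A g.NT)) (h : AllPr g β) :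
    g.Derives β ((β.flatMap (symW g)).map Symbol.terminal) := by
  induction β with
  | nil => exact Relation.ReflTransGen.refl
  | cons s β ih =>
    have ih' := ih (fun B hB => h B (List.mem_cons_of_mem _ hB))
    have h1 : g.Derives [s] ((symW g s).map Symbol.terminal) := by
      cases s with
      | terminal a => exact Relation.ReflTransGen.refl
      | nonterminal B =>
        have hB := h B List.mem_cons_self
        simp only [symW, dif_pos hB]
        exact hB.choose_spec
    rw [List.flatMap_cons, List.map_append]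
    exact (h1.append_right β).trans (ih'.append_left _)

lemma allPr_of (β : List (Symbol A g.NT)) (w : List A) (h : g.Derives β (w.map Symbol.terminal)) :
    AllPr g β := by
  induction h using Relation.ReflTransGen.head_induction_on with
  | refl => intro B hB; simp at hB
  | head hs _ ih =>
    obtain ⟨r, hr, hrw⟩ := hs
    obtain ⟨p, q, rfl, rfl⟩ := hrw.exists_parts
    intro B hB
    simp only [List.mem_append, List.mem_singleton] at hB
    rcases hB with (hB | hB) | hB
    · exact ih B (by simp [hB])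
    · obtain rfl : B = r.input := by injection hB
      refine ⟨r.output.flatMap (symW g), ?_⟩
      refine Relation.ReflTransGen.head ⟨r, hr, ContextFreeRule.Rewrites.input_output⟩ ?_
      exact der_flat g _ (fun C hC => ih C (by simp [hC]))
    · exact ih B (by simp [hB])

lemma flat_term (w : List A) : (w.map Symbol.terminal).flatMap (symW g) = w := by
  induction w with
  | nil => rfl
  | cons a w ih => simp [symW, ih]

/-- A context-free set of relators has a finitely normally generated normal closure. -/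
lemma cf_fin {Γ : Type} [Group Γ] (e : A → Γ) :
    (Subgroup.normalClosure (rels e g.language)).IsFinitelyNormallyGenerated := by
  set N := Subgroup.normalClosure (rels e g.language) with hN
  let ev : List (Symbol A g.NT) → Γ := fun β => ((β.flatMap (symW g)).map e).prod
  have ev_app : ∀ β γ, ev (β ++ γ) = ev β * ev γ := by
    intro β γ; simp [ev]
  let S : Set Γ := (insert (ev [Symbol.nonterminal g.initial])
    ((fun r : ContextFreeRule A g.NT => (ev [Symbol.nonterminal r.input])⁻¹ * ev r.output) ''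
      (g.rules : Set _))) ∩ N
  have hS : S.Finite := ((g.rules.finite_toSet.image _).insert _).inter_of_left _
  refine ⟨S, hS, le_antisymm (Subgroup.normalClosure_le_normal Set.inter_subset_right) ?_⟩
  apply Subgroup.normalClosure_le_normal
  rintro _ ⟨w, hw, rfl⟩
  have hL : ∀ β, g.Derives [Symbol.nonterminal g.initial] β → g.Derives β (w.map Symbol.terminal) →
      ev β ∈ N := fun β h1 h2 =>
    Subgroup.subset_normalClosure ⟨_, h1.trans (der_flat g β (allPr_of g β w h2)), rfl⟩
  have key : ∀ β, g.Derives [Symbol.nonterminal g.initial] β →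
      g.Derives β (w.map Symbol.terminal) → ev β ∈ Subgroup.normalClosure S := by
    intro β h1
    induction h1 with
    | refl =>
      intro h2
      exact Subgroup.subset_normalClosure
        ⟨Set.mem_insert _ _, hL _ Relation.ReflTransGen.refl h2⟩
    | tail h1 hs ih =>
      intro h2
      have h3 := ih (Relation.ReflTransGen.head hs h2)
      have h4 := hL _ h1 (Relation.ReflTransGen.head hs h2)
      have h5 := hL _ (h1.tail hs) h2
      obtain ⟨r, hr, hrw⟩ := hs
      obtain ⟨p, q, rfl, rfl⟩ := hrw.exists_parts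
      simp only [ev_app] at h3 h4 h5 ⊢
      have h6 : (ev [Symbol.nonterminal r.input])⁻¹ * ev r.output ∈ N := by
        have := Subgroup.normalClosure_normal.conj_mem _ (N.mul_mem (N.inv_mem h4) h5) (ev q)
        convert this using 1
        group
      have h7 : (ev [Symbol.nonterminal r.input])⁻¹ * ev r.output ∈ Subgroup.normalClosure S :=
        Subgroup.subset_normalClosure ⟨Set.mem_insert_of_mem _ ⟨r, hr, rfl⟩, h6⟩
      have := Subgroup.mul_mem _ h3 (Subgroup.normalClosure_normal.conj_mem _ h7 (ev q)⁻¹)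
      convert this using 1
      group
  have := key _ hw Relation.ReflTransGen.refl
  simpa only [ev, flat_term, SetLike.mem_coe] using this

end CF

/-- finite normal generation does not depend on the finite generating set -/
lemma transfer {Δ Δ' : Type} [Finite Δ] (R : Set (FreeGroup Δ)) (R' : Set (FreeGroup Δ'))
    (φ : PresentedGroup R ≃* PresentedGroup R')
    (h : (Subgroup.normalClosure R').IsFinitelyNormallyGenerated) :
    (Subgroup.normalClosure R).IsFinitelyNormallyGenerated := by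
  obtain ⟨S, hS, hN⟩ := h
  have h1 : ∀ y : Δ', ∃ x : FreeGroup Δ, PresentedGroup.mk R x = φ.symm (PresentedGroup.of y) :=
    fun y => PresentedGroup.mk_surjective R _
  have h2 : ∀ x : Δ, ∃ y : FreeGroup Δ', PresentedGroup.mk R' y = φ (PresentedGroup.of x) :=
    fun x => PresentedGroup.mk_surjective R' _
  choose a ha using h1
  choose b hb using h2
  let α : FreeGroup Δ' →* FreeGroup Δ := FreeGroup.lift a
  let β : FreeGroup Δ →* FreeGroup Δ' := FreeGroup.lift b
  have hα : (PresentedGroup.mk R).comp α = φ.symm.toMonoidHom.comp (PresentedGroup.mk R') := by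
    ext y; simp [α, ha, PresentedGroup.of]
  have hβ : (PresentedGroup.mk R').comp β = φ.toMonoidHom.comp (PresentedGroup.mk R) := by
    ext y; simp [β, hb, PresentedGroup.of]
  have hα' : ∀ y, PresentedGroup.mk R (α y) = φ.symm (PresentedGroup.mk R' y) :=
    fun y => DFunLike.congr_fun hα y
  have hβ' : ∀ y, PresentedGroup.mk R' (β y) = φ (PresentedGroup.mk R y) :=
    fun y => DFunLike.congr_fun hβ y
  let S2 : Set (FreeGroup Δ) := α '' S ∪ Set.range (fun x : Δ => (FreeGroup.of x)⁻¹ * α (β (FreeGroup.of x)))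
  refine ⟨S2, (hS.image _).union (Set.finite_range _), le_antisymm ?_ ?_⟩
  · apply Subgroup.normalClosure_le_normal
    rintro _ (⟨y, hy, rfl⟩ | ⟨x, rfl⟩)
    · rw [SetLike.mem_coe, ← PresentedGroup.mk_eq_one_iff, hα',
        PresentedGroup.mk_eq_one_iff.mpr (hN ▸ Subgroup.subset_normalClosure hy), map_one]
    · rw [SetLike.mem_coe, ← PresentedGroup.mk_eq_one_iff, map_mul, map_inv, hα', hβ']
      simp
  · intro w hw
    let π := QuotientGroup.mk' (Subgroup.normalClosure S2)
    have h3 : π = π.comp (α.comp β) := by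
      ext x
      exact QuotientGroup.eq.mpr (Subgroup.subset_normalClosure (Or.inr ⟨x, rfl⟩))
    have h4 : β w ∈ Subgroup.normalClosure S := by
      rw [hN, ← PresentedGroup.mk_eq_one_iff, hβ', PresentedGroup.mk_eq_one_iff.mpr hw, map_one]
    have h5 : Subgroup.normalClosure S ≤ (Subgroup.normalClosure S2).comap α := by
      apply Subgroup.normalClosure_le_normal
      intro y hy
      exact Subgroup.subset_normalClosure (Or.inl ⟨y, hy, rfl⟩)
    have h6 : π w = π (α (β w)) := DFunLike.congr_fun h3 w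
    have h7 : π (α (β w)) = 1 := (QuotientGroup.eq_one_iff _).mpr (h5 h4)
    exact (QuotientGroup.eq_one_iff _).mp (h6.trans h7)

/-! The grammar: letters `0 = a`, `1 = t`, `2 = s`; nonterminals `0 = S`, `1 = X`, `2 = T`, `3 = U`. -/

def Q₁ : Set (Fin 4 × List (Fin 3 ⊕ Fin 4)) :=
  {(0, [.inl 1, .inl 2]), (0, [.inl 0, .inl 0]),
   (1, [.inl 0, .inr 2, .inl 0, .inr 3, .inl 0, .inr 2, .inl 0, .inr 3])}
def Q₂ : Set (Fin 4 × Fin 4 × Bool) := {(0, 1, false), (1, 1, true)}
def Q₃ : Set (Fin 4 × Bool × List (Fin 3 ⊕ Fin 4)) :=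
  {(2, true, [.inl 1, .inr 2]), (2, false, []), (3, true, [.inl 2, .inr 3]), (3, false, [])}

def L₀ : Language (Fin 3) :=
  {w | Relation.ReflTransGen (Step Q₁ Q₂ Q₃) [Sum.inr (0, [])] (w.map Sum.inl)}

lemma indexed : IsIndexed L₀ :=
  ⟨Fin 4, Bool, inferInstance, inferInstance, 0, Q₁, Q₂, Q₃, by simp [Q₁], by simp [Q₂],
    by simp [Q₃], fun _ => Iff.rfl⟩

def stk (n : ℕ) : List Bool := List.replicate n true ++ [false]

lemma unroll (B : Fin 4) (x : Fin 3) (h1 : (B, true, [.inl x, .inr B]) ∈ Q₃)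
    (h0 : (B, false, []) ∈ Q₃) (n : ℕ) (p q : List (Fin 3 ⊕ (Fin 4 × List Bool))) :
    Relation.ReflTransGen (Step Q₁ Q₂ Q₃) (p ++ Sum.inr (B, stk n) :: q)
      (p ++ (List.replicate n x).map Sum.inl ++ q) := by
  induction n generalizing p with
  | zero =>
    exact Relation.ReflTransGen.single ⟨p, q, B, [], Or.inr (Or.inr ⟨false, [], h0, rfl, rfl⟩)⟩
  | succ n ih =>
    refine Relation.ReflTransGen.head
      ⟨p, q, B, stk n, Or.inr (Or.inr ⟨true, _, h1, rfl, rfl⟩)⟩ ?_
    have := ih (p ++ [Sum.inl x])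
    simpa [List.replicate_succ] using this

def rw' (n : ℕ) : List (Fin 3) :=
  0 :: List.replicate n 1 ++ 0 :: List.replicate n 2 ++ 0 :: List.replicate n 1 ++
    0 :: List.replicate n 2

lemma push (n : ℕ) : Relation.ReflTransGen (Step Q₁ Q₂ Q₃) [Sum.inr (0, [])]
    [Sum.inr (1, stk n)] := by
  induction n with
  | zero =>
    exact Relation.ReflTransGen.single
      ⟨[], [], 0, [], Or.inr (Or.inl ⟨1, false, by simp [Q₂], rfl, rfl⟩)⟩
  | succ n ih =>
    exact ih.tail ⟨[], [], 1, stk n, Or.inr (Or.inl ⟨1, true, by simp [Q₂], rfl, rfl⟩)⟩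

lemma rw_mem (n : ℕ) : rw' n ∈ L₀ := by
  have hT := unroll 2 1 (by simp [Q₃]) (by simp [Q₃]) n
  have hU := unroll 3 2 (by simp [Q₃]) (by simp [Q₃]) n
  refine ((push n).tail ⟨[], [], 1, stk n, Or.inl
    ⟨[.inl 0, .inr 2, .inl 0, .inr 3, .inl 0, .inr 2, .inl 0, .inr 3], by simp [Q₁], rfl, rfl⟩⟩).trans ?_
  let t : List (Fin 3 ⊕ (Fin 4 × List Bool)) := (List.replicate n 1).map Sum.inl
  let s : List (Fin 3 ⊕ (Fin 4 × List Bool)) := (List.replicate n 2).map Sum.inl
  let a : Fin 3 ⊕ (Fin 4 × List Bool) := Sum.inl 0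
  let T : Fin 3 ⊕ (Fin 4 × List Bool) := Sum.inr (2, stk n)
  let U : Fin 3 ⊕ (Fin 4 × List Bool) := Sum.inr (3, stk n)
  have e1 := hT [a] [a, U, a, T, a, U]
  have e2 := hU ([a] ++ t ++ [a]) [a, T, a, U]
  have e3 := hT ([a] ++ t ++ [a] ++ s ++ [a]) [a, U]
  have e4 := hU ([a] ++ t ++ [a] ++ s ++ [a] ++ t ++ [a]) []
  simp only [List.append_assoc, List.cons_append, List.nil_append, List.append_nil] at e1 e2 e3 e4
  have := ((e1.trans e2).trans e3).trans e4
  simpa [rw', a, T, U, t, s] using this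

def tt : Equiv.Perm ℤ := Equiv.addRight 1

def gen (K : ℕ) (x : Fin 3) : Equiv.Perm ℤ :=
  if x = 0 then Equiv.swap 0 (K : ℤ) else if x = 1 then tt else tt⁻¹

def psi (K : ℕ) : FreeGroup (Fin 3) →* Equiv.Perm ℤ := FreeGroup.lift (gen K)

lemma psi0 (K : ℕ) : psi K (FreeGroup.of 0) = Equiv.swap 0 (K : ℤ) := by simp [psi, gen]
lemma psi1 (K : ℕ) : psi K (FreeGroup.of 1) = tt := by simp [psi, gen]
lemma psi2 (K : ℕ) : psi K (FreeGroup.of 2) = tt⁻¹ := by
  simp only [psi, FreeGroup.lift_apply_of, gen]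
  rw [if_neg (by decide), if_neg (by decide)]

lemma tt_pow (n : ℕ) (x : ℤ) : (tt ^ n) x = x + n := by
  induction n with
  | zero => simp
  | succ n ih => rw [pow_succ', Equiv.Perm.mul_apply, ih]; simp [tt]; ring

def rr (n : ℕ) : FreeGroup (Fin 3) :=
  (FreeGroup.of 0 * (FreeGroup.of 1 ^ n * FreeGroup.of 0 * FreeGroup.of 2 ^ n)) *
  (FreeGroup.of 0 * (FreeGroup.of 1 ^ n * FreeGroup.of 0 * FreeGroup.of 2 ^ n))

lemma psi_rr (K n : ℕ) : psi K (rr n) =
    (Equiv.swap 0 (K : ℤ) * Equiv.swap (n : ℤ) (K + n)) *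
    (Equiv.swap 0 (K : ℤ) * Equiv.swap (n : ℤ) (K + n)) := by
  have : tt ^ n * Equiv.swap 0 (K : ℤ) * tt⁻¹ ^ n = Equiv.swap (n : ℤ) (K + n) := by
    rw [inv_pow, ← Equiv.swap_apply_apply, tt_pow, tt_pow, zero_add]
  simp only [rr, map_mul, map_pow, psi0, psi1, psi2, this]

lemma rr_lt (K n : ℕ) (h : n < K) : psi K (rr n) = 1 := by
  rw [psi_rr]
  ext x
  simp only [Equiv.Perm.mul_apply, Equiv.swap_apply_def, Equiv.Perm.one_apply]
  split_ifs <;> omega

lemma rr_eq (K : ℕ) (h : 0 < K) : psi K (rr K) ≠ 1 := by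
  rw [psi_rr]
  intro h1
  have := congrArg (fun f : Equiv.Perm ℤ => f 0) h1
  simp only [Equiv.Perm.mul_apply, Equiv.swap_apply_def, Equiv.Perm.one_apply] at this
  split_ifs at this <;> omega

def E : Subgroup (FreeGroup (Fin 3)) where
  carrier := {x | ∀ᶠ K in Filter.atTop, psi K x = 1}
  one_mem' := Filter.Eventually.of_forall (fun _ => map_one _)
  mul_mem' := by
    intro a b ha hb
    filter_upwards [ha, hb] with K h1 h2
    rw [map_mul, h1, h2, one_mul]
  inv_mem' := by
    intro a ha
    filter_upwards [ha] with K h1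
    rw [map_inv, h1, inv_one]

instance : E.Normal := ⟨fun a ha b => by
  filter_upwards [ha] with K h1
  simp [h1]⟩

def cnt : List Bool → ℕ
  | true :: l => cnt l + 1
  | _ => 0

def pi : FreeGroup (Fin 3) →* FreeGroup (Fin 3) ⧸ E := QuotientGroup.mk' E

def val : Fin 3 ⊕ (Fin 4 × List Bool) → FreeGroup (Fin 3) ⧸ E
  | .inl x => pi (FreeGroup.of x)
  | .inr (B, l) => if B = 2 then pi (FreeGroup.of 1) ^ cnt l else
      if B = 3 then pi (FreeGroup.of 2) ^ cnt l else 1

lemma val0 (l : List Bool) : val (.inr (0, l)) = 1 := rfl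
lemma val1 (l : List Bool) : val (.inr (1, l)) = 1 := rfl
lemma val2 (l : List Bool) : val (.inr (2, l)) = pi (FreeGroup.of 1) ^ cnt l := rfl
lemma val3 (l : List Bool) : val (.inr (3, l)) = pi (FreeGroup.of 2) ^ cnt l := rfl
lemma valx (x : Fin 3) : val (.inl x) = pi (FreeGroup.of x) := rfl

lemma pi_rr (n : ℕ) : pi (rr n) = 1 :=
  (QuotientGroup.eq_one_iff _).mpr
    (Filter.eventually_atTop.mpr ⟨n + 1, fun K hK => rr_lt K n hK⟩)

lemma pi_ts : pi (FreeGroup.of 1 * FreeGroup.of 2) = 1 :=
  (QuotientGroup.eq_one_iff _).mpr (Filter.Eventually.of_forall fun K => by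
    rw [map_mul, psi1, psi2, mul_inv_cancel])

lemma pi_aa : pi (FreeGroup.of 0 * FreeGroup.of 0) = 1 :=
  (QuotientGroup.eq_one_iff _).mpr (Filter.Eventually.of_forall fun K => by
    rw [map_mul, psi0, Equiv.swap_mul_self])

lemma step_val (u v : List (Fin 3 ⊕ (Fin 4 × List Bool))) (h : Step Q₁ Q₂ Q₃ u v) :
    (u.map val).prod = (v.map val).prod := by
  obtain ⟨p, q, A, l, ⟨α, h, rfl, rfl⟩ | ⟨B, f, h, rfl, rfl⟩ | ⟨f, α, h, rfl, rfl⟩⟩ := h
  · simp only [List.map_append, List.map_cons, List.prod_append, List.prod_cons, mul_assoc]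
    congr 2
    simp only [Q₁, Set.mem_insert_iff, Set.mem_singleton_iff, Prod.mk.injEq] at h
    rcases h with ⟨rfl, rfl⟩ | ⟨rfl, rfl⟩ | ⟨rfl, rfl⟩
    · have := pi_ts
      simp only [map_mul] at this
      simp [val0, valx, this]
    · have := pi_aa
      simp only [map_mul] at this
      simp [val0, valx, this]
    · have := pi_rr (cnt l)
      simp only [rr, map_mul, map_pow, mul_assoc] at this
      simp [val1, val2, val3, valx, this]
  · simp only [List.map_append, List.map_cons, List.prod_append, List.prod_cons]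
    congr 2
    simp only [Q₂, Set.mem_insert_iff, Set.mem_singleton_iff, Prod.mk.injEq] at h
    rcases h with ⟨rfl, rfl, rfl⟩ | ⟨rfl, rfl, rfl⟩
    · rfl
    · rfl
  · simp only [List.map_append, List.map_cons, List.prod_append, List.prod_cons, mul_assoc]
    congr 2
    simp only [Q₃, Set.mem_insert_iff, Set.mem_singleton_iff, Prod.mk.injEq] at h
    rcases h with ⟨rfl, rfl, rfl⟩ | ⟨rfl, rfl, rfl⟩ | ⟨rfl, rfl, rfl⟩ | ⟨rfl, rfl, rfl⟩
    · simp [val2, valx, cnt, pow_succ']
    · simp [val2, cnt]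
    · simp [val3, valx, cnt, pow_succ']
    · simp [val3, cnt]

lemma rels_le : Subgroup.normalClosure (rels FreeGroup.of L₀) ≤ E := by
  apply Subgroup.normalClosure_le_normal
  rintro _ ⟨w, hw, rfl⟩
  have h : ∀ v, Relation.ReflTransGen (Step Q₁ Q₂ Q₃) [Sum.inr (0, [])] v →
      (v.map val).prod = 1 := by
    intro v hv
    induction hv with
    | refl => simp [val0]
    | tail _ hs ih => rw [← step_val _ _ hs, ih]
  have h2 := h _ hw
  apply (QuotientGroup.eq_one_iff _).mp
  show pi _ = 1
  rw [map_list_prod, ← h2, List.map_map, List.map_map]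
  rfl

lemma not_fin : ¬ (Subgroup.normalClosure (rels FreeGroup.of L₀)).IsFinitelyNormallyGenerated := by
  rintro ⟨S, hS, hN⟩
  have h1 : ∀ᶠ K in Filter.atTop, ∀ x ∈ S, psi K x = 1 :=
    (hS.eventually_all).mpr fun x hx => rels_le (hN ▸ Subgroup.subset_normalClosure hx)
  obtain ⟨K, hK, hK0⟩ := (h1.and (Filter.eventually_gt_atTop 0)).exists
  have h2 : Subgroup.normalClosure S ≤ (psi K).ker := Subgroup.normalClosure_le_normal hK
  apply rr_eq K hK0
  apply h2
  rw [hN]
  refine Subgroup.subset_normalClosure ⟨rw' K, rw_mem K, ?_⟩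
  simp [rr, rw', mul_assoc]

theorem result : ∃ (Δ : Type) (_ : Finite Δ) (L : Language Δ), IsIndexed L ∧
    ∀ (Δ' A : Type) (e : A → FreeGroup Δ') (L' : Language A), L'.IsContextFree →
      IsEmpty (PresentedGroup (rels FreeGroup.of L) ≃* PresentedGroup (rels e L')) := by
  refine ⟨Fin 3, inferInstance, L₀, indexed, ?_⟩
  rintro Δ' A e _ ⟨g, rfl⟩
  exact ⟨fun φ => not_fin (transfer _ _ φ (cf_fin g e))⟩

end Pool.Agent.Results.MP_c0d803_al.Nested
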